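import Pool.Agent.H70.PT.Targets

/-!
# Row BIN of the board of MP_c95a35_lc: a large binomial coefficient
-/

set_option autoImplicit false

open Finset Pool.Agent.H70.PT

namespace Pool.Agent.H74.BWP

/-- the binomial weight -/
noncomputable def bt (n : ℕ) (b : ℝ) (j : ℕ) : ℝ := (n.choose j : ℝ) * b ^ j * (1 - b) ^ (n - j)

theorem bt_nonneg (n : ℕ) (b : ℝ) (h0 : 0 < b) (h1 : b < 1) (j : ℕ) : 0 ≤ bt n b j := by
  unfold bt
  have : 0 < 1 - b := by linarith
  positivity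

theorem bt_key (n : ℕ) (b : ℝ) (j : ℕ) (hj : j + 1 ≤ n) :
    ((j : ℝ) + 1) * (1 - b) * bt n b (j + 1) = ((n : ℝ) - j) * b * bt n b j := by
  unfold bt
  have h1 : (n.choose (j + 1) : ℝ) * ((j : ℝ) + 1) = (n.choose j : ℝ) * ((n : ℝ) - j) := by
    have := Nat.choose_succ_right_eq n j
    have h2 : ((n.choose (j + 1) * (j + 1) : ℕ) : ℝ) = ((n.choose j * (n - j) : ℕ) : ℝ) := by
      rw [this]
    rw [Nat.cast_mul, Nat.cast_mul, Nat.cast_sub (by omega)] at h2
    push_cast at h2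
    exact h2
  have h3 : n - j = (n - (j + 1)) + 1 := by omega
  rw [h3, pow_succ, pow_succ]
  calc ((j : ℝ) + 1) * (1 - b) * ((n.choose (j + 1) : ℝ) * (b ^ j * b) * (1 - b) ^ (n - (j + 1)))
      = ((n.choose (j + 1) : ℝ) * ((j : ℝ) + 1)) * (1 - b) * (b ^ j * b) *
        (1 - b) ^ (n - (j + 1)) := by ring
    _ = _ := by rw [h1]; ring

theorem bt_up (n : ℕ) (b : ℝ) (h0 : 0 < b) (h1 : b < 1) (j : ℕ) (hj : j + 1 ≤ n)
    (h : (j : ℝ) + 1 ≤ (n + 1) * b) : bt n b j ≤ bt n b (j + 1) := by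
  have hk := bt_key n b j hj
  have hn := bt_nonneg n b h0 h1 j
  have hc : ((j : ℝ) + 1) * (1 - b) ≤ ((n : ℝ) - j) * b := by nlinarith
  have hp : 0 < ((j : ℝ) + 1) * (1 - b) := by
    have : 0 < 1 - b := by linarith
    positivity
  have h2 : ((j : ℝ) + 1) * (1 - b) * bt n b j ≤ ((j : ℝ) + 1) * (1 - b) * bt n b (j + 1) := by
    rw [hk]
    exact mul_le_mul_of_nonneg_right hc hn
  exact le_of_mul_le_mul_left h2 hp

theorem bt_down (n : ℕ) (b : ℝ) (h0 : 0 < b) (h1 : b < 1) (j : ℕ) (hj : j + 1 ≤ n)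
    (h : (n + 1) * b ≤ (j : ℝ) + 1) : bt n b (j + 1) ≤ bt n b j := by
  have hk := bt_key n b j hj
  have hn := bt_nonneg n b h0 h1 j
  have hc : ((n : ℝ) - j) * b ≤ ((j : ℝ) + 1) * (1 - b) := by nlinarith
  have hp : 0 < ((j : ℝ) + 1) * (1 - b) := by
    have : 0 < 1 - b := by linarith
    positivity
  have h2 : ((j : ℝ) + 1) * (1 - b) * bt n b (j + 1) ≤ ((j : ℝ) + 1) * (1 - b) * bt n b j := by
    rw [hk]
    exact mul_le_mul_of_nonneg_right hc hn
  exact le_of_mul_le_mul_left h2 hp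

theorem bt_sum (n : ℕ) (b : ℝ) : ∑ j ∈ range (n + 1), bt n b j = 1 := by
  have h := add_pow b (1 - b) n
  have e : b + (1 - b) = 1 := by ring
  rw [e, one_pow] at h
  rw [h]
  refine Finset.sum_congr rfl fun j _ => ?_
  unfold bt
  ring

theorem bt_max (n : ℕ) (b : ℝ) (h0 : 0 < b) (h1 : b < 1) (k : ℕ) (hk : k ≤ n)
    (hk1 : (k : ℝ) ≤ (n + 1) * b) (hk2 : (n + 1) * b < (k : ℝ) + 1) (j : ℕ) (hj : j ≤ n) :
    bt n b j ≤ bt n b k := by
  rcases le_total j k with hjk | hjk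
  · refine Nat.decreasingInduction (motive := fun i _ => bt n b i ≤ bt n b k) ?_ le_rfl hjk
    intro i hi ih
    refine le_trans (bt_up n b h0 h1 i (by omega) ?_) ih
    have : ((i + 1 : ℕ) : ℝ) ≤ k := by exact_mod_cast hi
    push_cast at this
    linarith
  · induction j, hjk using Nat.le_induction with
    | base => exact le_rfl
    | succ i hi ih =>
      refine le_trans (bt_down n b h0 h1 i hj ?_) (ih (by omega))
      have : (k : ℝ) ≤ i := by exact_mod_cast hi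
      linarith

theorem pow_H (n : ℕ) (b : ℝ) (h0 : 0 < b) (h1 : b < 1) :
    (2 : ℝ) ^ (H b * n) = b ^ (-(b * n)) * (1 - b) ^ (-((1 - b) * n)) := by
  have h2 : 0 < 1 - b := by linarith
  have e1 : ∀ x : ℝ, 0 < x → ∀ y : ℝ, x ^ y = (2 : ℝ) ^ (Real.logb 2 x * y) := by
    intro x hx y
    rw [Real.rpow_mul (by norm_num), Real.rpow_logb (by norm_num) (by norm_num) hx]
  rw [e1 b h0, e1 (1 - b) h2, ← Real.rpow_add (by norm_num)]
  congr 1
  unfold H
  ring

/-- (BIN) the binomial coefficient. -/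
theorem pf_BIN : T_BIN := by
  intro n b hb1 hb2
  have h0 : 0 < b := by linarith
  have h1 : b < 1 := by linarith
  have h2 : 0 < 1 - b := by linarith
  have hn0 : (0 : ℝ) ≤ n := Nat.cast_nonneg n
  have hnb : (0 : ℝ) ≤ (n + 1) * b := by positivity
  have hk1 : ((⌊((n : ℝ) + 1) * b⌋₊ : ℕ) : ℝ) ≤ (n + 1) * b := Nat.floor_le hnb
  have hk2 : ((n : ℝ) + 1) * b < (⌊((n : ℝ) + 1) * b⌋₊ : ℕ) + 1 := Nat.lt_floor_add_one _
  obtain ⟨k, hkd⟩ : ∃ k, k = ⌊((n : ℝ) + 1) * b⌋₊ := ⟨_, rfl⟩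
  rw [← hkd] at hk1 hk2
  have hkn : k ≤ n := by
    have : (k : ℝ) < n + 1 := by nlinarith
    have h3 : k < n + 1 := by exact_mod_cast this
    omega
  refine ⟨k, hkn, ?_, ?_⟩
  · have hmax := bt_max n b h0 h1 k hkn hk1 hk2
    have hsum : (1 : ℝ) ≤ (n + 1) * bt n b k := by
      have := Finset.sum_le_card_nsmul (range (n + 1)) (bt n b) (bt n b k)
        (fun j hj => hmax j (by have := Finset.mem_range.1 hj; omega))
      rw [Finset.card_range, nsmul_eq_mul, bt_sum n b] at this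
      push_cast at this
      exact this
    have hq0 : 0 < (1 - b) / b := by positivity
    have hq1 : (1 - b) / b ≤ 1 := by
      rw [div_le_one h0]; linarith
    have hq3 : 1 / 3 ≤ (1 - b) / b := by
      rw [le_div_iff₀ h0]; linarith
    -- `2^(H n) / 3 ≤ 1 / (b^k (1-b)^(n-k))`
    have hA : (2 : ℝ) ^ (H b * n) / 3 * (b ^ k * (1 - b) ^ (n - k)) ≤ 1 := by
      have e1 : b ^ k * (1 - b) ^ (n - k) = (1 - b) ^ (n : ℝ) * ((1 - b) / b) ^ (-(k : ℝ)) := by
        rw [Real.rpow_neg hq0.le, Real.rpow_natCast, Real.rpow_natCast, div_pow, inv_div]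
        have : (1 - b) ^ n = (1 - b) ^ (n - k) * (1 - b) ^ k := by
          rw [← pow_add]; congr 1; omega
        rw [this]
        have hp : (1 - b) ^ k ≠ 0 := by positivity
        field_simp
      have e2 : ((1 - b) / b) ^ (-(k : ℝ)) ≤ ((1 - b) / b) ^ (-(((n : ℝ) + 1) * b)) :=
        Real.rpow_le_rpow_of_exponent_ge hq0 hq1 (by linarith)
      have e3 : ((1 - b) / b) ^ (-(((n : ℝ) + 1) * b)) =
          ((1 - b) / b) ^ (-(b * n)) * ((1 - b) / b) ^ (-b) := by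
        rw [← Real.rpow_add hq0]; congr 1; ring
      have e4 : ((1 - b) / b) ^ (-b) ≤ 3 := by
        have h3 : ((1 - b) / b) ^ (-b) ≤ (1 / 3 : ℝ) ^ (-b) := by
          rw [Real.rpow_neg hq0.le, Real.rpow_neg (by norm_num)]
          apply inv_anti₀ (by positivity)
          exact Real.rpow_le_rpow (by norm_num) hq3 h0.le
        have h4 : (1 / 3 : ℝ) ^ (-b) ≤ (1 / 3 : ℝ) ^ (-(1 : ℝ)) :=
          Real.rpow_le_rpow_of_exponent_ge (by norm_num) (by norm_num) (by linarith)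
        have h5 : (1 / 3 : ℝ) ^ (-(1 : ℝ)) = 3 := by
          rw [Real.rpow_neg (by norm_num), Real.rpow_one]; norm_num
        linarith
      have e5 : (2 : ℝ) ^ (H b * n) * ((1 - b) ^ (n : ℝ) * ((1 - b) / b) ^ (-(b * n))) = 1 := by
        rw [pow_H n b h0 h1, Real.div_rpow h2.le h0.le]
        have e6 : (1 - b) ^ (-((1 - b) * n)) * (1 - b) ^ (n : ℝ) * (1 - b) ^ (-(b * n)) = 1 := by
          rw [← Real.rpow_add h2, ← Real.rpow_add h2]
          have : -((1 - b) * n) + (n : ℝ) + -(b * n) = 0 := by ring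
          rw [this, Real.rpow_zero]
        have hp : b ^ (-(b * n)) ≠ 0 := (Real.rpow_pos_of_pos h0 _).ne'
        calc b ^ (-(b * n)) * (1 - b) ^ (-((1 - b) * n)) *
            ((1 - b) ^ (n : ℝ) * ((1 - b) ^ (-(b * n)) / b ^ (-(b * n))))
            = ((1 - b) ^ (-((1 - b) * n)) * (1 - b) ^ (n : ℝ) * (1 - b) ^ (-(b * n))) *
              (b ^ (-(b * n)) / b ^ (-(b * n))) := by ring
          _ = 1 := by rw [e6, div_self hp, one_mul]
      have hHp : (0 : ℝ) < (2 : ℝ) ^ (H b * n) := Real.rpow_pos_of_pos (by norm_num) _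
      have hpn : (0 : ℝ) < (1 - b) ^ (n : ℝ) := Real.rpow_pos_of_pos h2 _
      have hqn : (0 : ℝ) < ((1 - b) / b) ^ (-(b * n)) := Real.rpow_pos_of_pos hq0 _
      rw [e1]
      calc (2 : ℝ) ^ (H b * n) / 3 * ((1 - b) ^ (n : ℝ) * ((1 - b) / b) ^ (-(k : ℝ)))
          ≤ (2 : ℝ) ^ (H b * n) / 3 *
            ((1 - b) ^ (n : ℝ) * (((1 - b) / b) ^ (-(b * n)) * 3)) := by
            apply mul_le_mul_of_nonneg_left _ (by positivity)
            apply mul_le_mul_of_nonneg_left _ hpn.le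
            refine le_trans e2 ?_
            rw [e3]
            exact mul_le_mul_of_nonneg_left e4 hqn.le
        _ = (2 : ℝ) ^ (H b * n) * ((1 - b) ^ (n : ℝ) * ((1 - b) / b) ^ (-(b * n))) := by ring
        _ = 1 := e5
    have hw : 0 < b ^ k * (1 - b) ^ (n - k) := by positivity
    have hC : (2 : ℝ) ^ (H b * n) / 3 ≤ (n + 1) * (n.choose k : ℝ) := by
      have h3 : (2 : ℝ) ^ (H b * n) / 3 * (b ^ k * (1 - b) ^ (n - k)) ≤
          (n + 1) * (n.choose k : ℝ) * (b ^ k * (1 - b) ^ (n - k)) := by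
        refine le_trans hA (le_trans hsum (le_of_eq ?_))
        unfold bt
        ring
      exact le_of_mul_le_mul_right h3 hw
    have e7 : (2 : ℝ) ^ (-(ka b * n)) = (2 : ℝ) ^ (H b * n) / 2 ^ n := by
      have : -(ka b * n) = H b * n - n := by unfold ka; ring
      rw [this, Real.rpow_sub (by norm_num), Real.rpow_natCast]
    rw [e7, div_div, div_le_div_iff₀ (by positivity) (by positivity)]
    have hp2 : (0 : ℝ) < 2 ^ n := by positivity
    have h3 : (2 : ℝ) ^ (H b * n) ≤ (n.choose k : ℝ) * (3 * (n + 1)) := by linarith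
    calc (2 : ℝ) ^ (H b * n) * 2 ^ n ≤ ((n.choose k : ℝ) * (3 * (n + 1))) * 2 ^ n :=
          mul_le_mul_of_nonneg_right h3 hp2.le
      _ = (n.choose k : ℝ) * (2 ^ n * (3 * (n + 1))) := by ring
  · rw [div_le_iff₀ (by norm_num)]
    have e : (3 : ℝ) ^ k * 3 = (3 : ℝ) ^ ((k : ℝ) + 1) := by
      rw [Real.rpow_add (by norm_num), Real.rpow_one, Real.rpow_natCast]
    rw [e]
    apply Real.rpow_le_rpow_of_exponent_le (by norm_num)
    nlinarith

end Pool.Agent.H74.BWP
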